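import Pool.Agent.P8H89.JN.Asz

/-!
# JN/ASY and JN/DAT: all local conditions; the two data
-/

set_option autoImplicit false

namespace Pool.Agent.P8H89.JN

open MeasureTheory Filter Topology Finset Pool.Agent.P8H12.JN

theorem fin_box {d : ℕ} (B : ℝ) : {y : Fin d → ℤ | ∀ i, |((y i : ℤ) : ℝ)| ≤ B}.Finite := by
  refine (Set.finite_Icc (fun _ : Fin d => -⌈B⌉) (fun _ => ⌈B⌉)).subset ?_
  intro y h2
  constructor
  · intro i
    have h3 := (abs_le.mp (h2 i)).1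
    have h4 := Int.le_ceil B
    have : ((-⌈B⌉ : ℤ) : ℝ) ≤ (y i : ℝ) := by
      push_cast
      linarith
    exact_mod_cast this
  · intro i
    have h3 := (abs_le.mp (h2 i)).2
    have h4 := Int.le_ceil B
    have : (y i : ℝ) ≤ ((⌈B⌉ : ℤ) : ℝ) := by linarith
    exact_mod_cast this

theorem box_of_sc {d : ℕ} {D : Set (Fin d → ℝ)} (hD : Bornology.IsBounded D) :
    ∃ R : ℝ, 1 ≤ R ∧ ∀ l : ℝ, 0 < l → ∀ y : Fin d → ℤ, sc l y ∈ D →
      ∀ i, |((y i : ℤ) : ℝ)| ≤ R * l := by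
  obtain ⟨R, hR⟩ := hD.subset_closedBall 0
  refine ⟨max R 1, le_max_right _ _, fun l hl y hy i => ?_⟩
  have h1 := hR hy
  rw [mem_closedBall_zero_iff] at h1
  have h3 := (norm_le_pi_norm (sc l y) i).trans (h1.trans (le_max_left R 1))
  unfold sc at h3
  rw [Real.norm_eq_abs, abs_div, abs_of_pos hl, div_le_iff₀ hl] at h3
  exact h3

theorem ne_of_typ {n p : ℕ} {x : ℕ × ℕ} {z : Fin n → ℤ} (h : Typ p x z) (i : Fin n) :
    z i ≠ 0 := by
  obtain ⟨a, h1, -⟩ := h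
  intro h0
  exact (h1 i).2 (by rw [h0]; exact dvd_zero _)

theorem asy (hZ : S_ASZ) (hT : S_TL) (hP : S_PRD) : S_ASY := by
  intro d hd E hE D hD
  obtain ⟨N, hN⟩ := hE
  obtain ⟨-, -, hr, -⟩ := hP (d + 1) (by omega) E ⟨N, hN⟩
  obtain ⟨R, hR1, hR⟩ := box_of_sc hD.1
  obtain ⟨C, hC0, hC⟩ := hT d hd R hR1
  have hv : Tendsto (fun K : ℕ => (volume D).toReal *
      ∏ p ∈ K.primesBelow, ∑ x ∈ E p, dl (d + 1) p x) atTop
      (𝓝 ((volume D).toReal * rhoE (d + 1) E)) := hr.const_mul _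
  have hc : Tendsto (fun K : ℕ => C / ((K : ℝ) - 1)) atTop (𝓝 0) :=
    Tendsto.div_atTop tendsto_const_nhds
      ((tendsto_natCast_atTop_atTop (R := ℝ)).atTop_add tendsto_const_nhds)
  rw [Metric.tendsto_nhds]
  intro ε hε
  have e1 : ∀ᶠ K : ℕ in atTop, dist ((volume D).toReal *
      ∏ p ∈ K.primesBelow, ∑ x ∈ E p, dl (d + 1) p x)
      ((volume D).toReal * rhoE (d + 1) E) < ε / 3 := (Metric.tendsto_nhds.mp hv) _ (by linarith)
  have e2 : ∀ᶠ K : ℕ in atTop, C / ((K : ℝ) - 1) < ε / 3 :=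
    hc.eventually_lt_const (by linarith)
  obtain ⟨K, k1, k2, k3, k4⟩ := (e1.and (e2.and ((eventually_ge_atTop N).and
    (eventually_ge_atTop 3)))).exists
  have hg := hZ d hd K.primesBelow (fun p hp => Nat.prime_of_mem_primesBelow hp) E D hD
  have hg' := (Metric.tendsto_nhds.mp hg) (ε / 3) (by linarith)
  filter_upwards [hg', eventually_ge_atTop 1] with l hl hl1
  have hl0 : 0 < l := by linarith
  obtain ⟨A, hA⟩ : ∃ A, A = {y : Fin d → ℤ | (∀ i, co y i ≠ 0) ∧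
    (∀ p : ℕ, p.Prime → ∃ x ∈ E p, Typ p x (co y)) ∧ sc l y ∈ D} := ⟨_, rfl⟩
  obtain ⟨B, hB⟩ : ∃ B, B = {y : Fin d → ℤ | (∀ p ∈ K.primesBelow, ∃ x ∈ E p, Typ p x (co y)) ∧
    sc l y ∈ D} := ⟨_, rfl⟩
  obtain ⟨t1, t2⟩ := hC (K - 1) (by omega) l hl1
  obtain ⟨T, hTT⟩ : ∃ T, T = {y : Fin d → ℤ | (∀ i, co y i ≠ 0) ∧ (∀ i, |((y i : ℤ) : ℝ)| ≤ R * l) ∧
    ∃ p : ℕ, p.Prime ∧ K - 1 < p ∧ ¬ Typ p (0, 0) (co y)} := ⟨_, rfl⟩
  rw [← hTT] at t1 t2
  rw [← hA]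
  rw [← hB] at hl
  have fB : B.Finite := by
    rw [hB]
    exact (fin_sc hD.1 hl0).subset fun y hy => hy.2
  have hAB : A ⊆ B := by
    rw [hA, hB]
    exact fun y hy => ⟨fun p hp => hy.2.1 p (Nat.prime_of_mem_primesBelow hp), hy.2.2⟩
  have hBA : B ⊆ A ∪ T := by
    intro y hy
    rw [hB] at hy
    obtain ⟨x, hx, hx2⟩ := hy.1 2 (by
      rw [Nat.mem_primesBelow]
      exact ⟨by omega, Nat.prime_two⟩)
    have hne : ∀ i, co y i ≠ 0 := ne_of_typ hx2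
    by_cases h : ∀ p : ℕ, p.Prime → K ≤ p → Typ p (0, 0) (co y)
    · left
      rw [hA]
      refine ⟨hne, fun p hp => ?_, hy.2⟩
      rcases Nat.lt_or_ge p K with h1 | h1
      · exact hy.1 p (Nat.mem_primesBelow.mpr ⟨h1, hp⟩)
      · exact ⟨(0, 0), hN p (by omega), h p hp h1⟩
    · right
      push Not at h
      obtain ⟨p, p1, p2, p3⟩ := h
      rw [hTT]
      exact ⟨hne, hR l hl0 y hy.2, p, p1, by omega, p3⟩
  have c1 : (A.ncard : ℝ) ≤ B.ncard := by exact_mod_cast Set.ncard_le_ncard hAB fB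
  have c2 : (B.ncard : ℝ) ≤ A.ncard + T.ncard := by
    have h1 := Set.ncard_le_ncard hBA ((fB.subset hAB).union t1)
    have h2 := Set.ncard_union_le A T
    exact_mod_cast h1.trans h2
  have hld : 0 < l ^ d := pow_pos hl0 d
  have hK : ((K - 1 : ℕ) : ℝ) = (K : ℝ) - 1 := by
    rw [Nat.cast_sub (by omega)]
    simp
  rw [hK] at t2
  have d1 : (A.ncard : ℝ) / l ^ d ≤ B.ncard / l ^ d := div_le_div_of_nonneg_right c1 hld.le
  have d2 : (B.ncard : ℝ) / l ^ d ≤ A.ncard / l ^ d + C / ((K : ℝ) - 1) := by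
    have h1 : (T.ncard : ℝ) / l ^ d ≤ C / ((K : ℝ) - 1) := by
      rw [div_le_iff₀ hld]
      calc (T.ncard : ℝ) ≤ _ := t2
        _ = _ := by ring
    calc (B.ncard : ℝ) / l ^ d ≤ (A.ncard + T.ncard) / l ^ d := div_le_div_of_nonneg_right c2 hld.le
      _ = A.ncard / l ^ d + T.ncard / l ^ d := by ring
      _ ≤ _ := by linarith
  rw [Real.dist_eq, abs_lt] at *
  constructor <;> linarith

theorem dat (hA : S_ASY) (hRp : S_REP) (hS : S_SHB) (hP : S_PRD) : S_DAT := by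
  intro d hd
  have hpt : ∀ y : Fin d → ℤ, Pt (co y) → 1 ≤ rep (co y) ∧ 1 ≤ sh (co y) := fun y hy =>
    ⟨(hRp (d + 1) (by omega) (co y) hy.2).2.2.2.2.1, (hRp (d + 1) (by omega) (co y) hy.2).2.2.2.2.2⟩
  have hfac : ∀ w p : ℕ, w < p → w.factorization p = 0 := fun w p h => by
    rcases Nat.eq_zero_or_pos w with h0 | h0
    · rw [h0]
      simp
    · exact Nat.factorization_eq_zero_of_not_dvd fun hd => absurd (Nat.le_of_dvd h0 hd) (by omega)
  have hE1 : ∀ w : ℕ, ∃ N : ℕ, ∀ p : ℕ, N ≤ p → (0, 0) ∈ E1 (d + 1) w p := fun w => by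
    refine ⟨w + 1, fun p hp => ?_⟩
    unfold E1
    rw [mem_image]
    exact ⟨0, mem_range.mpr (by omega), by rw [hfac w p (by omega)]⟩
  have hE2 : ∀ w s : ℕ, ∃ N : ℕ, ∀ p : ℕ, N ≤ p → (0, 0) ∈ E2 w s p := fun w s => by
    refine ⟨w + s + 1, fun p hp => ?_⟩
    unfold E2
    rw [mem_singleton, hfac w p (by omega), hfac s p (by omega)]
  refine ⟨⟨fun j => le_max_left _ _, fun y hy => max_eq_right (hpt y hy).1, fun j => ?_,
    fun j D hD => ?_, fun R hR ε hε => ?_⟩, ⟨fun j => le_max_left _ _,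
    fun y hy => max_eq_right (hpt y hy).1, fun j => ?_, fun j D hD => ?_, fun R hR ε hε => ?_⟩⟩
  · change 0 ≤ rho1 (d + 1) j
    unfold rho1
    split_ifs
    · exact le_rfl
    · exact (hP (d + 1) (by omega) _ (hE1 j)).2.1
  · change Tendsto (fun l : ℝ => (({y : Fin d → ℤ | Pt (co y) ∧ rep (co y) = j ∧
      sc l y ∈ D}.ncard : ℕ) : ℝ) / l ^ d) atTop (𝓝 ((volume D).toReal * rho1 (d + 1) j))
    unfold rho1
    split_ifs with h0
    · rw [mul_zero]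
      refine tendsto_const_nhds.congr fun l => ?_
      have e : {y : Fin d → ℤ | Pt (co y) ∧ rep (co y) = j ∧ sc l y ∈ D} = ∅ := by
        ext y
        refine ⟨fun h => ?_, fun h => h.elim⟩
        have h1 := (hpt y h.1).1
        have h2 : rep (co y) = j := h.2.1
        omega
      rw [e, Set.ncard_empty]
      simp
    · refine (hA d hd (E1 (d + 1) j) (hE1 j) D hD).congr fun l => ?_
      congr 3
      ext y
      constructor
      · rintro ⟨h1, h2, h3⟩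
        have h4 := ((hRp (d + 1) (by omega) (co y) h1).2.1 j (by omega)).mp h2
        exact ⟨⟨h4.1, h1⟩, h4.2, h3⟩
      · rintro ⟨h1, h2, h3⟩
        exact ⟨h1.2, ((hRp (d + 1) (by omega) (co y) h1.2).2.1 j (by omega)).mpr ⟨h1.1, h2⟩, h3⟩
  · refine ⟨range (⌊R⌋₊ + 1), fun l hl => ?_⟩
    have e : {y : Fin d → ℤ | Pt (co y) ∧ (∀ i, |((y i : ℤ) : ℝ)| ≤ R * l) ∧
        (rep (co y) : ℝ) ≤ R ∧ rep (co y) ∉ range (⌊R⌋₊ + 1)} = ∅ := by
      ext y
      refine ⟨fun h => ?_, fun h => h.elim⟩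
      obtain ⟨-, -, h3, h4⟩ := h
      exact absurd (mem_range.mpr (Nat.lt_succ_of_le (Nat.le_floor h3))) h4
    change ((({y : Fin d → ℤ | Pt (co y) ∧ (∀ i, |((y i : ℤ) : ℝ)| ≤ R * l) ∧
        (rep (co y) : ℝ) ≤ R ∧ rep (co y) ∉ range (⌊R⌋₊ + 1)}.ncard : ℕ) : ℝ)) ≤ ε * l ^ d
    rw [e, Set.ncard_empty]
    have : 0 ≤ ε * l ^ d := by positivity
    simpa using this
  · change 0 ≤ rho2 (d + 1) j
    unfold rho2
    split_ifs
    · exact le_rfl
    · exact (hP (d + 1) (by omega) _ (hE2 j.1 j.2)).2.1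
  · change Tendsto (fun l : ℝ => (({y : Fin d → ℤ | Pt (co y) ∧ (rep (co y), sh (co y)) = j ∧
      sc l y ∈ D}.ncard : ℕ) : ℝ) / l ^ d) atTop (𝓝 ((volume D).toReal * rho2 (d + 1) j))
    obtain ⟨w, s⟩ := j
    unfold rho2
    split_ifs with h0
    · rw [mul_zero]
      refine tendsto_const_nhds.congr fun l => ?_
      have e : {y : Fin d → ℤ | Pt (co y) ∧ (rep (co y), sh (co y)) = (w, s) ∧ sc l y ∈ D} = ∅ := by
        ext y
        refine ⟨fun h => ?_, fun h => h.elim⟩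
        have h1 := hpt y h.1
        have h2 := Prod.mk.inj h.2.1
        dsimp only at h0
        omega
      rw [e, Set.ncard_empty]
      simp
    · dsimp only at h0
      refine (hA d hd (E2 w s) (hE2 w s) D hD).congr fun l => ?_
      congr 3
      ext y
      constructor
      · rintro ⟨h1, h2, h3⟩
        have h4 := ((hRp (d + 1) (by omega) (co y) h1).1 w s (by omega) (by omega)).mp h2
        exact ⟨⟨h4.1, h1⟩, Prod.ext h4.2.1 h4.2.2, h3⟩
      · rintro ⟨h1, h2, h3⟩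
        have h5 := Prod.mk.inj h2
        exact ⟨h1.2, ((hRp (d + 1) (by omega) (co y) h1.2).1 w s (by omega) (by omega)).mpr
          ⟨h1.1, h5.1, h5.2⟩, h3⟩
  · obtain ⟨T, hT⟩ := hS d hd R hR ε hε
    refine ⟨(range (⌊R⌋₊ + 1)) ×ˢ (range (T + 1)), fun l hl => ?_⟩
    refine le_trans ?_ (hT l hl)
    have h1 := Set.ncard_le_ncard (s := {y : Fin d → ℤ | Pt (co y) ∧
        (∀ i, |((y i : ℤ) : ℝ)| ≤ R * l) ∧ (rep (co y) : ℝ) ≤ R ∧
        (rep (co y), sh (co y)) ∉ (range (⌊R⌋₊ + 1)) ×ˢ (range (T + 1))})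
      (t := {y : Fin d → ℤ | (∀ i, co y i ≠ 0) ∧ (∀ i, |((y i : ℤ) : ℝ)| ≤ R * l) ∧
        T < sh (co y)}) (by
      rintro y ⟨h1, h2, h3, h4⟩
      refine ⟨h1.2, h2, ?_⟩
      by_contra hcon
      exact h4 (mem_product.mpr ⟨mem_range.mpr (Nat.lt_succ_of_le (Nat.le_floor h3)),
        mem_range.mpr (by omega)⟩)) ((fin_box (R * l)).subset fun y hy => hy.2.1)
    exact_mod_cast h1

end Pool.Agent.P8H89.JN
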