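import Pool.Agent.P8H12.JN.Stm

/-!
# JN/ASZ: local conditions at finitely many primes
-/

set_option autoImplicit false

namespace Pool.Agent.P8H89.JN

open MeasureTheory Filter Topology Finset Pool.Agent.P8H12.JN

section per

variable {d : ℕ}

/-- congruent vectors -/
def Cg (M : ℕ) (y y' : Fin d → ℤ) : Prop := ∀ i, (M : ℤ) ∣ y i - y' i

theorem Cg.symm {M : ℕ} {y y' : Fin d → ℤ} (h : Cg M y y') : Cg M y' y := fun i => by
  have := h i
  rwa [dvd_sub_comm] at this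

theorem Cg.mono {M N : ℕ} (hd : M ∣ N) {y y' : Fin d → ℤ} (h : Cg N y y') : Cg M y y' :=
  fun i => (Int.natCast_dvd_natCast.mpr hd).trans (h i)

theorem co_cg {M : ℕ} {y y' : Fin d → ℤ} (h : Cg M y y') : ∀ i, (M : ℤ) ∣ co y i - co y' i := by
  intro i
  unfold co
  refine Fin.lastCases ?_ (fun j => ?_) i
  · rw [Fin.snoc_last, Fin.snoc_last]
    have e : (-∑ i, y i) - (-∑ i, y' i) = -∑ i, (y i - y' i) := by
      rw [Finset.sum_sub_distrib]
      ring
    rw [e, dvd_neg]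
    exact Finset.dvd_sum fun i _ => h i
  · rw [Fin.snoc_castSucc, Fin.snoc_castSucc]
    exact h j

/-- periodic predicates -/
def Per (M : ℕ) (C : (Fin d → ℤ) → Prop) : Prop := ∀ y y', Cg M y y' → C y → C y'

/-- the integer representative -/
def lf {M : ℕ} (c : Fin d → ZMod M) : Fin d → ℤ := fun i => ((c i).val : ℤ)

theorem lf_cast {M : ℕ} [NeZero M] (c : Fin d → ZMod M) (i : Fin d) :
    ((lf c i : ℤ) : ZMod M) = c i := by
  unfold lf
  rw [Int.cast_natCast, ZMod.natCast_zmod_val]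

theorem cg_iff {M : ℕ} {y y' : Fin d → ℤ} :
    Cg M y y' ↔ ∀ i, ((y i : ℤ) : ZMod M) = ((y' i : ℤ) : ZMod M) := by
  unfold Cg
  refine forall_congr' fun i => ?_
  rw [ZMod.intCast_eq_intCast_iff_dvd_sub, dvd_sub_comm]

open Classical in
/-- the classes with `C` -/
noncomputable def cls (M : ℕ) [NeZero M] (C : (Fin d → ℤ) → Prop) : Finset (Fin d → ZMod M) :=
  univ.filter fun c : Fin d → ZMod M => C (lf c)

theorem mem_cls {M : ℕ} [NeZero M] {C : (Fin d → ℤ) → Prop} {c : Fin d → ZMod M} :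
    c ∈ cls M C ↔ C (lf c) := by
  classical
  unfold cls
  rw [mem_filter]
  exact ⟨fun h => h.2, fun h => ⟨mem_univ _, h⟩⟩

/-- the number of the classes with `C` -/
noncomputable def cnt (M : ℕ) [NeZero M] (C : (Fin d → ℤ) → Prop) : ℕ := (cls M C).card

theorem cnt_set {M : ℕ} [NeZero M] {C : (Fin d → ℤ) → Prop} (hC : Per M C) :
    {c : Fin d → ZMod M | ∃ y : Fin d → ℤ, (∀ i, ((y i : ℤ) : ZMod M) = c i) ∧ C y}.ncard =
      cnt M C := by
  have e : {c : Fin d → ZMod M | ∃ y : Fin d → ℤ, (∀ i, ((y i : ℤ) : ZMod M) = c i) ∧ C y} =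
      ((cls M C : Finset (Fin d → ZMod M)) : Set (Fin d → ZMod M)) := by
    ext c
    rw [Finset.mem_coe, mem_cls]
    constructor
    · rintro ⟨y, h1, h2⟩
      exact hC y _ (cg_iff.mpr fun i => by rw [h1, lf_cast]) h2
    · intro h
      exact ⟨lf c, fun i => lf_cast c i, h⟩
  rw [e, Set.ncard_coe_finset]
  rfl

theorem cnt_mul {M N : ℕ} [NeZero M] [NeZero N] [NeZero (M * N)] (h : M.Coprime N)
    {C C' : (Fin d → ℤ) → Prop} (hC : Per M C) (hC' : Per N C') :
    cnt (M * N) (fun y => C y ∧ C' y) = cnt M C * cnt N C' := by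
  classical
  unfold cnt
  rw [← Finset.card_product]
  have k1 : ∀ (c : Fin d → ZMod (M * N)) (i : Fin d),
      ZMod.chineseRemainder h (c i) = (((lf c i : ℤ) : ZMod M), ((lf c i : ℤ) : ZMod N)) := by
    intro c i
    conv_lhs => rw [← lf_cast c i]
    rw [map_intCast]
    rfl
  have k2 : ∀ c : Fin d → ZMod (M * N), Cg M (lf c)
      (lf fun i => (ZMod.chineseRemainder h (c i)).1) := fun c =>
    cg_iff.mpr fun i => by rw [lf_cast, k1]
  have k3 : ∀ c : Fin d → ZMod (M * N), Cg N (lf c)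
      (lf fun i => (ZMod.chineseRemainder h (c i)).2) := fun c =>
    cg_iff.mpr fun i => by rw [lf_cast, k1]
  refine Finset.card_bij' (fun c _ => ((fun i => (ZMod.chineseRemainder h (c i)).1),
    (fun i => (ZMod.chineseRemainder h (c i)).2)))
    (fun c _ => fun i => (ZMod.chineseRemainder h).symm (c.1 i, c.2 i)) ?_ ?_ ?_ ?_
  · intro c hc
    have hc := mem_cls.mp hc
    exact mem_product.mpr ⟨mem_cls.mpr (hC _ _ (k2 c) hc.1), mem_cls.mpr (hC' _ _ (k3 c) hc.2)⟩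
  · intro c hc
    have h0 := mem_product.mp hc
    have g1 := mem_cls.mp h0.1
    have g2 := mem_cls.mp h0.2
    have h2 := k2 fun i => (ZMod.chineseRemainder h).symm (c.1 i, c.2 i)
    have h3 := k3 fun i => (ZMod.chineseRemainder h).symm (c.1 i, c.2 i)
    simp only [RingEquiv.apply_symm_apply] at h2 h3
    exact mem_cls.mpr ⟨hC _ _ h2.symm g1, hC' _ _ h3.symm g2⟩
  · intro c _
    funext i
    simp
  · intro c _
    simp

theorem cnt_or {α : Type} {M : ℕ} [NeZero M] (E : Finset α) (C : α → (Fin d → ℤ) → Prop)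
    (hd : ∀ x ∈ E, ∀ x' ∈ E, ∀ y, C x y → C x' y → x = x') :
    cnt M (fun y => ∃ x ∈ E, C x y) = ∑ x ∈ E, cnt M (C x) := by
  classical
  unfold cnt
  rw [← Finset.card_biUnion]
  · congr 1
    ext c
    rw [mem_cls, mem_biUnion]
    exact exists_congr fun x => and_congr_right fun _ => mem_cls.symm
  · intro x hx x' hx' hne
    rw [Function.onFun, Finset.disjoint_left]
    intro c h1 h2
    exact hne (hd x hx x' hx' _ (mem_cls.mp h1) (mem_cls.mp h2))

theorem fin_sc {D : Set (Fin d → ℝ)} (hD : Bornology.IsBounded D) {l : ℝ} (hl : 0 < l) :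
    {y : Fin d → ℤ | sc l y ∈ D}.Finite := by
  obtain ⟨R, hR⟩ := hD.subset_closedBall 0
  refine (Set.finite_Icc (fun _ : Fin d => -⌈R * l⌉) (fun _ => ⌈R * l⌉)).subset ?_
  intro y hy
  have h1 := hR hy
  rw [mem_closedBall_zero_iff] at h1
  have h2 : ∀ i, |(y i : ℝ)| ≤ R * l := by
    intro i
    have h3 := (norm_le_pi_norm (sc l y) i).trans h1
    unfold sc at h3
    rw [Real.norm_eq_abs, abs_div, abs_of_pos hl, div_le_iff₀ hl] at h3
    exact h3
  constructor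
  · intro i
    have h3 := (abs_le.mp (h2 i)).1
    have h4 := Int.le_ceil (R * l)
    have : ((-⌈R * l⌉ : ℤ) : ℝ) ≤ (y i : ℝ) := by
      push_cast
      linarith
    exact_mod_cast this
  · intro i
    have h3 := (abs_le.mp (h2 i)).2
    have h4 := Int.le_ceil (R * l)
    have : (y i : ℝ) ≤ ((⌈R * l⌉ : ℤ) : ℝ) := by linarith
    exact_mod_cast this

theorem dens (hEQ : S_EQ) {D : Set (Fin d → ℝ)} (hD : Jor D) {M : ℕ} [NeZero M]
    {C : (Fin d → ℤ) → Prop} (hC : Per M C) :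
    Tendsto (fun l : ℝ => (({y : Fin d → ℤ | C y ∧ sc l y ∈ D}.ncard : ℕ) : ℝ) / l ^ d) atTop
      (𝓝 ((volume D).toReal * (cnt M C / (M : ℝ) ^ d))) := by
  classical
  have hM : 0 < M := Nat.pos_of_ne_zero (NeZero.ne M)
  have h1 : ∀ l : ℝ, 0 < l → {y : Fin d → ℤ | C y ∧ sc l y ∈ D}.ncard =
      ∑ c ∈ cls M C,
        {z : Fin d → ℤ | (∃ y : Fin d → ℤ, ∀ i, z i = lf c i + M * y i) ∧
          (fun i => (z i : ℝ) / l) ∈ D}.ncard := by
    intro l hl
    obtain ⟨Sf, hSf⟩ : ∃ Sf : Finset (Fin d → ℤ), ∀ y, y ∈ Sf ↔ sc l y ∈ D :=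
      ⟨(fin_sc hD.1 hl).toFinset, fun y => by rw [Set.Finite.mem_toFinset]; rfl⟩
    have e1 : {y : Fin d → ℤ | C y ∧ sc l y ∈ D} = ((Sf.filter C : Finset (Fin d → ℤ)) :
        Set (Fin d → ℤ)) := by
      ext y
      rw [Finset.mem_coe, mem_filter, hSf]
      exact and_comm
    rw [e1, Set.ncard_coe_finset]
    rw [Finset.card_eq_sum_card_fiberwise (f := fun y : Fin d → ℤ => fun i => ((y i : ℤ) : ZMod M))
      (t := cls M C)]
    · refine Finset.sum_congr rfl fun c hc => ?_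
      rw [mem_cls] at hc
      have e2 : {z : Fin d → ℤ | (∃ y : Fin d → ℤ, ∀ i, z i = lf c i + M * y i) ∧
          (fun i => (z i : ℝ) / l) ∈ D} =
          (((Sf.filter C).filter fun y => (fun i => ((y i : ℤ) : ZMod M)) = c :
            Finset (Fin d → ℤ)) : Set (Fin d → ℤ)) := by
        ext z
        rw [Finset.mem_coe, mem_filter, mem_filter, hSf]
        constructor
        · rintro ⟨⟨y, hy⟩, hz⟩
          have h2 : ∀ i, ((z i : ℤ) : ZMod M) = c i := by
            intro i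
            rw [hy i]
            push_cast
            rw [lf_cast, ZMod.natCast_self, zero_mul, add_zero]
          refine ⟨⟨hz, hC _ _ (cg_iff.mpr fun i => ?_) hc⟩, funext h2⟩
          rw [lf_cast, h2]
        · rintro ⟨⟨h2, -⟩, h3⟩
          have h4 : Cg M z (lf c) := cg_iff.mpr fun i => by rw [lf_cast, ← h3]
          choose y hy using h4
          exact ⟨⟨y, fun i => by rw [← hy i]; ring⟩, h2⟩
      rw [e2, Set.ncard_coe_finset]
    · intro y hy
      rw [Finset.mem_coe, mem_filter] at hy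
      rw [Finset.mem_coe, mem_cls]
      refine hC _ _ (cg_iff.mpr fun i => ?_) hy.2
      rw [lf_cast]
  have h2 : Tendsto (fun l : ℝ => ∑ c ∈ cls M C,
      (({z : Fin d → ℤ | (∃ y : Fin d → ℤ, ∀ i, z i = lf c i + M * y i) ∧
          (fun i => (z i : ℝ) / l) ∈ D}.ncard : ℕ) : ℝ) / l ^ d) atTop
      (𝓝 (∑ c ∈ cls M C,
        (volume D).toReal / (M : ℝ) ^ d)) :=
    tendsto_finsetSum _ fun c _ => hEQ d D hD M hM (lf c)
  have h3 : (∑ c ∈ cls M C,
        (volume D).toReal / (M : ℝ) ^ d) = (volume D).toReal * (cnt M C / (M : ℝ) ^ d) := by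
    rw [Finset.sum_const, nsmul_eq_mul]
    unfold cnt
    ring
  rw [h3] at h2
  refine h2.congr' ?_
  filter_upwards [eventually_gt_atTop 0] with l hl
  rw [h1 l hl]
  push_cast
  rw [Finset.sum_div]

end per

/-- the condition at the prime `p` -/
def Cp {d : ℕ} (E : ℕ → Finset (ℕ × ℕ)) (p : ℕ) (y : Fin d → ℤ) : Prop :=
  ∃ x ∈ E p, Typ p x (co y)

theorem per_cp (hP : S_PER) {d p : ℕ} (hp : p.Prime) (E : ℕ → Finset (ℕ × ℕ)) {m : ℕ}
    (hm : ∀ x ∈ E p, x.1 + 2 ≤ m) : Per (p ^ m) (Cp (d := d) E p) := by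
  rintro y y' h ⟨x, hx, ht⟩
  refine ⟨x, hx, (hP (d + 1) p hp).1 x m (hm x hx) _ _ (fun i => ?_) ht⟩
  have := co_cg h i
  push_cast at this
  exact this

theorem cnt_cp (hP : S_PER) (hL : S_LOC) {d p : ℕ} (hd : 2 ≤ d) (hp : p.Prime)
    (E : ℕ → Finset (ℕ × ℕ)) {m : ℕ} (hm : ∀ x ∈ E p, x.1 + 2 ≤ m) [NeZero (p ^ m)] :
    (cnt (p ^ m) (Cp (d := d) E p) : ℝ) =
      (∑ x ∈ E p, dl (d + 1) p x) * ((p ^ m : ℕ) : ℝ) ^ d := by
  unfold Cp
  rw [cnt_or (E p) (fun x y => Typ p x (co y)) fun x _ x' _ y h h' => (hP (d + 1) p hp).2 x x' _ h h']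
  push_cast
  rw [Finset.sum_mul]
  refine Finset.sum_congr rfl fun x hx => ?_
  have h1 : Per (p ^ m) fun y : Fin d → ℤ => Typ p x (co y) := by
    intro y y' h ht
    refine (hP (d + 1) p hp).1 x m (hm x hx) _ _ (fun i => ?_) ht
    have := co_cg h i
    push_cast at this
    exact this
  rw [← cnt_set h1]
  exact hL d p hd hp x m (hm x hx)

theorem all (hP : S_PER) (hL : S_LOC) {d : ℕ} (hd : 2 ≤ d) (E : ℕ → Finset (ℕ × ℕ))
    (Z : Finset ℕ) : (∀ p ∈ Z, p.Prime) → ∃ (M : ℕ) (_ : NeZero M),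
      (∀ q, q.Prime → q ∉ Z → q.Coprime M) ∧ Per M (fun y : Fin d → ℤ => ∀ p ∈ Z, Cp E p y) ∧
      (cnt M (fun y : Fin d → ℤ => ∀ p ∈ Z, Cp E p y) : ℝ) =
        (∏ p ∈ Z, ∑ x ∈ E p, dl (d + 1) p x) * (M : ℝ) ^ d := by
  classical
  induction Z using Finset.induction_on with
  | empty =>
    intro _
    refine ⟨1, ⟨one_ne_zero⟩, fun q _ _ => Nat.coprime_one_right q, fun y y' _ _ => by simp, ?_⟩
    have e0 : cnt 1 (fun y : Fin d → ℤ => ∀ p ∈ (∅ : Finset ℕ), Cp E p y) = 1 := by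
      unfold cnt
      have e1 : cls 1 (fun y : Fin d → ℤ => ∀ p ∈ (∅ : Finset ℕ), Cp E p y) = univ := by
        ext c
        rw [mem_cls]
        exact ⟨fun _ => mem_univ _, fun _ p hp => absurd hp (Finset.notMem_empty p)⟩
      rw [e1, Finset.card_univ, Fintype.card_fun, ZMod.card, one_pow]
    rw [e0]
    simp
  | insert p Z hpZ ih =>
    intro hZ
    obtain ⟨M, i1, h1, h2, h3⟩ := ih fun q hq => hZ q (mem_insert_of_mem hq)
    have hp : p.Prime := hZ p (mem_insert_self p Z)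
    obtain ⟨m, hm⟩ : ∃ m : ℕ, ∀ x ∈ E p, x.1 + 2 ≤ m :=
      ⟨(E p).sup fun x => x.1 + 2, fun x hx => Finset.le_sup (f := fun x : ℕ × ℕ => x.1 + 2) hx⟩
    have i2 : NeZero (p ^ m) := ⟨pow_ne_zero _ hp.ne_zero⟩
    have i3 : NeZero (p ^ m * M) := ⟨mul_ne_zero i2.out i1.out⟩
    have hc : (p ^ m).Coprime M := Nat.Coprime.pow_left _ (h1 p hp hpZ)
    have e : (fun y : Fin d → ℤ => ∀ q ∈ insert p Z, Cp E q y) =
        fun y => Cp E p y ∧ ∀ q ∈ Z, Cp E q y := by
      funext y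
      rw [Finset.forall_mem_insert]
    have g1 := per_cp (d := d) hP hp E hm
    refine ⟨p ^ m * M, i3, ?_, ?_, ?_⟩
    · intro q hq hqn
      rw [mem_insert, not_or] at hqn
      exact Nat.Coprime.mul_right (Nat.Coprime.pow_right _ ((Nat.coprime_primes hq hp).mpr hqn.1))
        (h1 q hq hqn.2)
    · rw [e]
      rintro y y' h ⟨h4, h5⟩
      exact ⟨g1 y y' (h.mono (dvd_mul_right _ _)) h4, h2 y y' (h.mono (dvd_mul_left _ _)) h5⟩
    · rw [e, cnt_mul hc g1 h2, Finset.prod_insert hpZ]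
      push_cast
      rw [h3, cnt_cp hP hL hd hp E hm]
      push_cast
      ring

theorem asz (hEQ : S_EQ) (hP : S_PER) (hL : S_LOC) : S_ASZ := by
  intro d hd Z hZ E D hD
  obtain ⟨M, i1, h1, h2, h3⟩ := all (d := d) hP hL hd E Z hZ
  have h4 := dens hEQ hD h2
  rw [h3] at h4
  have hM : (M : ℝ) ^ d ≠ 0 := pow_ne_zero _ (Nat.cast_ne_zero.mpr i1.out)
  rw [mul_div_assoc, div_self hM, mul_one] at h4
  exact h4

end Pool.Agent.P8H89.JN
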